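import Pool.Agent.U282.TF.Bound
import Pool.Agent.U282.TF.Sym

/-!
# MP_eadad4_nt (Q1, unramified places): the generalized Ramanujan conjecture follows from coarse estimates

A *datum* `X = (k, G, π, r)` consists of a global function field `k`, a quasi-split connected reductive group `G ≠ 1`
over `k`, a globally generic cuspidal automorphic representation `π` of `G` with unitary central character, and a
finite-dimensional representation `r` of the `L`-group. At the places `v` where `π` is unramified the Satake parameters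
are the eigenvalues `α_(j,v)` of `r(s_v)`. The *size* of `X` is `rank G + max ⟨λ, 2ρ^∨⟩`, `λ` the highest weights of
`r`. (The trivial bound is `|α_(j,v)| ≤ q_v ^ (size / 2)`.)

*Theorem.* Let `Ramanujan X` be the statement `|α_(j,v)| = 1` for all `v`, `j`. Let `unit X v` be the number of the `j`
with `|α_(j,v)| = 1`, and `tr X v` the trace of `r(s_v)` (the eigenvalue of the Hecke operator of `r`).

1. `Ramanujan X` holds if and only if it holds for `X^n = (k, G^n, π ⊠ ⋯ ⊠ π, r ⊠ ⋯ ⊠ r)`.
2. (Square root law.) If `Ramanujan X` fails, then `unit X^n v ≤ C / √n * dim r^n` for all `n` and `v`, with `C`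
   depending only on `X`: in the powers almost all the Satake parameters violate the conjecture.
3. So `Ramanujan X` holds for all `X` if and only if there is a function `f` with `f d * √d → ∞` such that for each `X`
   there is a place `v` where a share `f (size X)` of the Satake parameters has absolute value `1`.
4. `Ramanujan X` holds for all `X` if and only if there is a function `f` with `f d / d → 0` such that for each
   `X` there is a place `v` with `|α_(j,v)| ≤ q_v ^ f (size X)` for all `j`.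
5. `Ramanujan X` holds for all `X` if and only if there is a function `f` with `f d / d → 0` such that
   `|tr r(s_v)| ≤ q_v ^ f (size X) * dim r` for all `X` and `v`.

So each improvement of the trivial bounds, which are linear in the size, to a sublinear bound implies the
conjecture (at the unramified places).

`RamanujanTheory` collects the known facts which are used:

* By V. Lafforgue there is a semisimple Langlands parameter `σ_π` which is compatible with the Satake isomorphism at
  the unramified places. By L. Lafforgue the irreducible constituents of `r ∘ σ_π` are pure up to twist. So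
  `|α_(j,v)| = q_v ^ x_j` with real numbers `x_j` which do not depend on `v`.
* `∑ x_j = 0`, because the central character is unitary.
* `π ⊠ ⋯ ⊠ π` is cuspidal, globally generic and has unitary central character. Its Satake parameters in
  `r ⊠ ⋯ ⊠ r` are the products of those of `π`. The weights of `Sym^m r` are the monomials.

The theorem holds for each class of data closed under powers and symmetric powers of `r`.

For (2) the exponents are mapped to integers by a `ℚ`-linear form and the Littlewood-Offord bound of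
`Pool/Agent/U282/TF/Bound` is used; for (5) the traces of the powers and of the symmetric powers are used
(`Pool/Agent/U282/TF/Sym`).
-/

set_option autoImplicit false

namespace Pool.Agent.Results.MP_eadad4_nt.CoarseRamanujan

open Pool.Agent.U282.TF Filter Module

universe u

/-- The data `(k, G, π, r)` and their Satake parameters, with the known facts which are used. -/
structure RamanujanTheory where
  /-- the data `(k, G, π, r)` -/
  Datum : Type u
  /-- the size: the rank of `G` plus the largest `⟨λ, 2ρ^∨⟩`, `λ` a highest weight of `r` -/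
  size : Datum → ℕ
  size_pos : ∀ X, 0 < size X
  /-- the dimension of `r` -/
  dim : Datum → ℕ
  dim_pos : ∀ X, 0 < dim X
  /-- the places where `π` is unramified -/
  Place : Datum → Type u
  place_ne : ∀ X, Nonempty (Place X)
  /-- the number of the elements of the residue field -/
  q : ∀ X, Place X → ℝ
  q_gt : ∀ X v, 1 < q X v
  /-- the Satake parameters: the eigenvalues of `r(s_v)` -/
  α : ∀ X, Place X → Fin (dim X) → ℂ
  /-- the exponents: half of the weights of `r ∘ σ_π` -/
  x : ∀ X, Fin (dim X) → ℝ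
  /-- the exponents do not depend on the place -/
  pure : ∀ X v, ∃ s : Equiv.Perm (Fin (dim X)), ∀ j, ‖α X v (s j)‖ = q X v ^ x X j
  /-- the central character is unitary -/
  unitary : ∀ X, ∑ j, x X j = 0
  /-- the powers `(k, G ^ n, π ^ n, r ^ n)` -/
  pow : Datum → ℕ → Datum
  size_pow : ∀ X n, 1 ≤ n → size (pow X n) = n * size X
  /-- the exponents of the powers -/
  x_pow : ∀ X n, 1 ≤ n → ∃ e : Fin (dim (pow X n)) ≃ (Fin n → Fin (dim X)),
    ∀ j, x (pow X n) j = ∑ k, x X (e j k)
  /-- the traces of the powers -/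
  trace_pow : ∀ X n, 1 ≤ n → ∀ v : Place X, ∃ w : Place (pow X n), q (pow X n) w = q X v ∧
    ∑ j, α (pow X n) w j = (∑ j, α X v j) ^ n
  /-- the symmetric powers `(k, G, π, Sym^m r)` -/
  sym : Datum → ℕ → Datum
  /-- the Satake parameters of the symmetric powers -/
  sym_params : ∀ X m (v : Place X), ∃ (w : Place (sym X m))
    (e : Fin (dim (sym X m)) ≃ {k : Fin (dim X) → ℕ // ∑ i, k i = m}),
    ∀ j, α (sym X m) w j = ∏ i, α X v i ^ (e j).1 i

variable (T : RamanujanTheory.{u})

/-- The conjecture for `π` and `r`: all the Satake parameters have absolute value `1`. -/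
def Ramanujan (X : T.Datum) : Prop := ∀ v j, ‖T.α X v j‖ = 1

/-- The number of the Satake parameters of absolute value `1` at `v`. -/
noncomputable def unit (X : T.Datum) (v : T.Place X) : ℕ := Nat.card {j // ‖T.α X v j‖ = 1}

/-- The eigenvalue of the Hecke operator of `r` at `v`: the trace of `r(s_v)`. -/
noncomputable def tr (X : T.Datum) (v : T.Place X) : ℂ := ∑ j, T.α X v j

variable {T}

lemma int_mult {d : ℕ} (y : Fin d → ℚ) : ∃ D : ℕ, D ≠ 0 ∧ ∀ j, ∃ z : ℤ, (z : ℚ) = D * y j := by
  refine ⟨∏ j, (y j).den, Finset.prod_ne_zero_iff.2 fun j _ => (y j).den_nz, fun j => ?_⟩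
  obtain ⟨c, hc⟩ := Finset.dvd_prod_of_mem (fun j => (y j).den) (Finset.mem_univ j)
  refine ⟨c * (y j).num, ?_⟩
  rw [hc]
  push_cast
  have h : ((y j).den : ℚ) * y j = (y j).num := by
    rw [mul_comm]
    exact Rat.mul_den_eq_num _
  calc (c : ℚ) * (y j).num = c * ((y j).den * y j) := by rw [h]
    _ = _ := by ring

/-- The number of the words of sum zero, for real steps. -/
theorem real_bound {d : ℕ} (x : Fin d → ℝ) (h : ∃ i, x i ≠ 0) :
    ∃ C : ℝ, ∀ n : ℕ, 1 ≤ n → (Nat.card {g : Fin n → Fin d // ∑ k, x (g k) = 0} : ℝ) *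
      √(n : ℝ) ≤ C * (d : ℝ) ^ n := by
  obtain ⟨i, hi⟩ := h
  obtain ⟨φ, hφ⟩ : ∃ φ : Dual ℚ ℝ, φ (x i) ≠ 0 := by
    by_contra hcon
    push Not at hcon
    exact hi ((Module.forall_dual_apply_eq_zero_iff ℚ (x i)).1 hcon)
  obtain ⟨D, hD, hz⟩ := int_mult fun j => φ (x j)
  choose δ hδ using hz
  have hne : δ i ≠ 0 := by
    intro h0
    have h1 := hδ i
    rw [h0, Int.cast_zero] at h1
    have h2 : (D : ℚ) ≠ 0 := by exact_mod_cast hD
    exact (mul_ne_zero h2 hφ) h1.symm
  obtain ⟨C, hC⟩ := words_bound δ ⟨i, hne⟩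
  refine ⟨C, fun n hn => ?_⟩
  have h1 := hC n hn
  rw [Fintype.card_fin] at h1
  refine le_trans (mul_le_mul_of_nonneg_right ?_ (Real.sqrt_nonneg _)) h1
  have h2 : Nat.card {g : Fin n → Fin d // ∑ k, x (g k) = 0} ≤
      Nat.card {g : Fin n → Fin d // ∑ k, δ (g k) = 0} := by
    refine Nat.card_le_card_of_injective (fun g => ⟨g.1, ?_⟩) ?_
    · have h3 : ((∑ k, δ (g.1 k) : ℤ) : ℚ) = D * φ (∑ k, x (g.1 k)) := by
        push_cast
        rw [map_sum, Finset.mul_sum]
        exact Finset.sum_congr rfl fun k _ => hδ _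
      rw [g.2, map_zero, mul_zero] at h3
      exact_mod_cast h3
    · intro a b hab
      apply Subtype.ext
      simpa using hab
  exact_mod_cast h2

lemma rpow_one_iff {q y : ℝ} (hq : 1 < q) : q ^ y = 1 ↔ y = 0 := by
  constructor
  · intro h
    have h1 := congrArg Real.log h
    rw [Real.log_rpow (by linarith), Real.log_one] at h1
    rcases mul_eq_zero.1 h1 with h2 | h2
    · exact h2
    · have := Real.log_pos hq
      linarith
  · rintro rfl
    exact Real.rpow_zero _

lemma unit_eq (X : T.Datum) (v : T.Place X) : unit T X v = Nat.card {j // T.x X j = 0} := by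
  obtain ⟨s, hs⟩ := T.pure X v
  rw [unit]
  symm
  refine Nat.card_congr (Equiv.subtypeEquiv s fun j => ?_)
  rw [hs, rpow_one_iff (T.q_gt X v)]

lemma ram_iff (X : T.Datum) : Ramanujan T X ↔ ∀ j, T.x X j = 0 := by
  constructor
  · intro h j
    obtain ⟨v⟩ := T.place_ne X
    obtain ⟨s, hs⟩ := T.pure X v
    have h1 := h v (s j)
    rwa [hs, rpow_one_iff (T.q_gt X v)] at h1
  · intro h v j
    obtain ⟨s, hs⟩ := T.pure X v
    have h1 := hs (s.symm j)
    rwa [Equiv.apply_symm_apply, h, Real.rpow_zero] at h1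

lemma one_place (X : T.Datum) (v : T.Place X) (h : ∀ j, ‖T.α X v j‖ = 1) : Ramanujan T X := by
  rw [ram_iff]
  intro j
  obtain ⟨s, hs⟩ := T.pure X v
  have h1 := h (s j)
  rwa [hs, rpow_one_iff (T.q_gt X v)] at h1

lemma dim_pow (X : T.Datum) {n : ℕ} (hn : 1 ≤ n) : T.dim (T.pow X n) = T.dim X ^ n := by
  obtain ⟨e, -⟩ := T.x_pow X n hn
  have := Fintype.card_congr e
  rwa [Fintype.card_fun, Fintype.card_fin, Fintype.card_fin, Fintype.card_fin] at this

lemma card_pow (X : T.Datum) {n : ℕ} (hn : 1 ≤ n) : Nat.card {j // T.x (T.pow X n) j = 0} =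
    Nat.card {g : Fin n → Fin (T.dim X) // ∑ k, T.x X (g k) = 0} := by
  obtain ⟨e, he⟩ := T.x_pow X n hn
  refine Nat.card_congr (Equiv.subtypeEquiv e fun j => ?_)
  rw [he]

lemma exists_mul (X : T.Datum) {n : ℕ} (hn : 1 ≤ n) (j : Fin (T.dim X)) :
    ∃ i, T.x (T.pow X n) i = n * T.x X j := by
  obtain ⟨e, he⟩ := T.x_pow X n hn
  refine ⟨e.symm fun _ => j, ?_⟩
  rw [he]
  simp

lemma ram_pow_iff (X : T.Datum) {n : ℕ} (hn : 1 ≤ n) :
    Ramanujan T (T.pow X n) ↔ Ramanujan T X := by
  rw [ram_iff, ram_iff]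
  constructor
  · intro h j
    obtain ⟨i, hi⟩ := exists_mul X hn j
    rw [h i] at hi
    have hn' : (n : ℝ) ≠ 0 := by
      have : n ≠ 0 := by omega
      exact_mod_cast this
    exact (mul_eq_zero.1 hi.symm).resolve_left hn'
  · intro h i
    obtain ⟨e, he⟩ := T.x_pow X n hn
    rw [he]
    exact Finset.sum_eq_zero fun k _ => h _

lemma small {X : T.Datum} (h : ¬ Ramanujan T X) : ∃ C : ℝ, ∀ n, 1 ≤ n → ∀ v,
    (unit T (T.pow X n) v : ℝ) * √(n : ℝ) ≤ C * T.dim (T.pow X n) := by
  rw [ram_iff] at h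
  push Not at h
  obtain ⟨C, hC⟩ := real_bound (T.x X) h
  refine ⟨C, fun n hn v => ?_⟩
  rw [unit_eq, card_pow X hn, dim_pow X hn]
  push_cast
  exact hC n hn

lemma tend (d : ℕ) (hd : 0 < d) : Tendsto (fun n : ℕ => (n + 1) * d) atTop atTop :=
  (tendsto_id.comp (tendsto_add_atTop_nat 1)).atTop_mul_const' hd

lemma global_share {f : ℕ → ℝ} (hf : Tendsto (fun d : ℕ => f d * √(d : ℝ)) atTop atTop)
    (h : ∀ X, ∃ v, f (T.size X) * T.dim X ≤ unit T X v) (X : T.Datum) : Ramanujan T X := by
  by_contra hcon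
  obtain ⟨C, hC⟩ := small hcon
  obtain ⟨n, hn⟩ := ((hf.comp (tend _ (T.size_pos X))).eventually_gt_atTop
    (C * √(T.size X : ℝ))).exists
  simp only [Function.comp_apply] at hn
  obtain ⟨v, hv⟩ := h (T.pow X (n + 1))
  have h3 := hC (n + 1) (Nat.succ_pos n) v
  rw [T.size_pow X (n + 1) (Nat.succ_pos n)] at hv
  have h4 : (0 : ℝ) < T.dim (T.pow X (n + 1)) := by exact_mod_cast T.dim_pos _
  have h5 := (mul_le_mul_of_nonneg_right hv (Real.sqrt_nonneg ((n + 1 : ℕ) : ℝ))).trans h3
  have h6 : (f ((n + 1) * T.size X) * √((n + 1 : ℕ) : ℝ)) * T.dim (T.pow X (n + 1)) ≤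
      C * T.dim (T.pow X (n + 1)) := by linarith
  have h7 := le_of_mul_le_mul_right h6 h4
  rw [Nat.cast_mul, Real.sqrt_mul (Nat.cast_nonneg _), ← mul_assoc] at hn
  have h8 := mul_le_mul_of_nonneg_right h7 (Real.sqrt_nonneg (T.size X : ℝ))
  linarith

lemma global_size {f : ℕ → ℝ} (hf : Tendsto (fun d : ℕ => f d / d) atTop (nhds 0))
    (h : ∀ X, ∃ v, ∀ j, ‖T.α X v j‖ ≤ T.q X v ^ f (T.size X)) (X : T.Datum) :
    Ramanujan T X := by
  rw [ram_iff]
  by_contra hcon
  push Not at hcon
  obtain ⟨i, hi⟩ := hcon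
  obtain ⟨j, -, hj⟩ := Finset.exists_pos_of_sum_zero_of_exists_nonzero (T.x X) (T.unitary X)
    ⟨i, Finset.mem_univ i, hi⟩
  have hr : (0 : ℝ) < T.size X := by exact_mod_cast T.size_pos X
  obtain ⟨n, hn⟩ := ((hf.comp (tend _ (T.size_pos X))).eventually_lt_const
    (div_pos hj hr)).exists
  simp only [Function.comp_apply] at hn
  obtain ⟨v, hv⟩ := h (T.pow X (n + 1))
  obtain ⟨i, hi⟩ := exists_mul X (n := n + 1) (Nat.succ_pos n) j
  obtain ⟨s, hs⟩ := T.pure (T.pow X (n + 1)) v
  have h1 := hv (s i)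
  rw [hs, hi, T.size_pow X (n + 1) (Nat.succ_pos n),
    Real.rpow_le_rpow_left_iff (T.q_gt _ v)] at h1
  rw [Nat.cast_mul, div_lt_div_iff₀ (mul_pos (by positivity) hr) hr] at hn
  push_cast at hn h1
  nlinarith

lemma global_trace {f : ℕ → ℝ} (hf : Tendsto (fun d : ℕ => f d / d) atTop (nhds 0))
    (h : ∀ X v, ‖tr T X v‖ ≤ T.q X v ^ f (T.size X) * T.dim X) (X : T.Datum)
    (v : T.Place X) : ‖tr T X v‖ ≤ T.dim X := by
  by_contra hcon
  rw [not_le] at hcon
  have hd : (0 : ℝ) < T.dim X := by exact_mod_cast T.dim_pos X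
  have hr : (0 : ℝ) < T.size X := by exact_mod_cast T.size_pos X
  have hq := T.q_gt X v
  have hlq := Real.log_pos hq
  have hc : 1 < ‖tr T X v‖ / T.dim X := by rwa [one_lt_div hd]
  have hlc := Real.log_pos hc
  set c := ‖tr T X v‖ / T.dim X with hcdef
  have hpos : 0 < Real.log c / (Real.log (T.q X v) * T.size X) := by positivity
  obtain ⟨n, hn⟩ := ((hf.comp (tend _ (T.size_pos X))).eventually_lt_const hpos).exists
  simp only [Function.comp_apply] at hn
  obtain ⟨w, hw1, hw2⟩ := T.trace_pow X (n + 1) (Nat.succ_pos n) v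
  have h1 := h (T.pow X (n + 1)) w
  have h2 : tr T (T.pow X (n + 1)) w = tr T X v ^ (n + 1) := hw2
  rw [h2, norm_pow, hw1, T.size_pow X (n + 1) (Nat.succ_pos n),
    dim_pow X (n := n + 1) (Nat.succ_pos n)] at h1
  push_cast at h1
  have h3 : ‖tr T X v‖ = c * T.dim X := by
    rw [hcdef, div_mul_cancel₀ _ hd.ne']
  rw [h3, mul_pow] at h1
  have h4 := le_of_mul_le_mul_right h1 (pow_pos hd (n + 1))
  have h5 := Real.log_le_log (by positivity) h4
  rw [Real.log_pow, Real.log_rpow (by linarith)] at h5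
  rw [Nat.cast_mul, div_lt_div_iff₀ (mul_pos (by positivity) hr) (by positivity)] at hn
  push_cast at h5 hn
  nlinarith [mul_le_mul_of_nonneg_right h5 hr.le]

lemma ram_of_trace (h : ∀ X v, ‖tr T X v‖ ≤ T.dim X) (X : T.Datum) : Ramanujan T X := by
  have hle : ∀ v j, ‖T.α X v j‖ ≤ 1 := by
    intro v
    refine disc_of_growth (T.α X v) fun m => ?_
    obtain ⟨w, e, he⟩ := T.sym_params X m v
    have h1 := h (T.sym X m) w
    rw [tr, sum_sym (T.α X v) (T.α (T.sym X m) w) e he] at h1
    refine h1.trans ?_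
    exact_mod_cast card_sym e
  rw [ram_iff]
  by_contra hcon
  push Not at hcon
  obtain ⟨i, hi⟩ := hcon
  obtain ⟨j, -, hj⟩ := Finset.exists_pos_of_sum_zero_of_exists_nonzero (T.x X) (T.unitary X)
    ⟨i, Finset.mem_univ i, hi⟩
  obtain ⟨v⟩ := T.place_ne X
  obtain ⟨s, hs⟩ := T.pure X v
  have h1 := hle v (s j)
  rw [hs] at h1
  have h2 := Real.one_lt_rpow (T.q_gt X v) hj
  linarith

variable (T)

/-- **The generalized Ramanujan conjecture (unramified places) follows from coarse estimates.** -/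
theorem result :
    (∀ X n, 1 ≤ n → (Ramanujan T (T.pow X n) ↔ Ramanujan T X)) ∧
    (∀ X, ¬ Ramanujan T X → ∃ C : ℝ, ∀ n, 1 ≤ n → ∀ v,
      (unit T (T.pow X n) v : ℝ) * √(n : ℝ) ≤ C * T.dim (T.pow X n)) ∧
    ((∀ X, Ramanujan T X) ↔ ∃ f : ℕ → ℝ, Tendsto (fun d : ℕ => f d * √(d : ℝ)) atTop atTop ∧
      ∀ X, ∃ v, f (T.size X) * T.dim X ≤ unit T X v) ∧
    ((∀ X, Ramanujan T X) ↔ ∃ f : ℕ → ℝ, Tendsto (fun d : ℕ => f d / d) atTop (nhds 0) ∧
      ∀ X, ∃ v, ∀ j, ‖T.α X v j‖ ≤ T.q X v ^ f (T.size X)) ∧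
    ((∀ X, Ramanujan T X) ↔ ∃ f : ℕ → ℝ,
      Tendsto (fun d : ℕ => f d / d) atTop (nhds 0) ∧
      ∀ X v, ‖tr T X v‖ ≤ T.q X v ^ f (T.size X) * T.dim X) := by
  refine ⟨fun X n hn => ram_pow_iff X hn, fun X => small,
    ⟨fun h => ?_, fun ⟨f, hf, h⟩ => global_share hf h⟩,
    ⟨fun h => ?_, fun ⟨f, hf, h⟩ => global_size hf h⟩,
    ⟨fun h => ?_, fun ⟨f, hf, h⟩ => ram_of_trace (global_trace hf h)⟩⟩
  · refine ⟨fun _ => 1, ?_, fun X => ?_⟩
    · simp only [one_mul]
      exact Real.tendsto_sqrt_atTop.comp tendsto_natCast_atTop_atTop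
    · obtain ⟨v⟩ := T.place_ne X
      refine ⟨v, ?_⟩
      have h1 : unit T X v = T.dim X := by
        rw [unit, Nat.card_congr (Equiv.subtypeUnivEquiv (h X v)), Nat.card_eq_fintype_card,
          Fintype.card_fin]
      rw [h1, one_mul]
  · refine ⟨fun _ => 0, by simp, fun X => ?_⟩
    obtain ⟨v⟩ := T.place_ne X
    refine ⟨v, fun j => ?_⟩
    rw [Real.rpow_zero, h X v j]
  · refine ⟨fun _ => 0, by simp, fun X v => ?_⟩
    rw [Real.rpow_zero, one_mul, tr]
    refine (norm_sum_le _ _).trans ?_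
    rw [Finset.sum_congr rfl fun j _ => h X v j]
    simp

end Pool.Agent.Results.MP_eadad4_nt.CoarseRamanujan
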